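import Pool.Agent.SQD.Stmts

/-!
# Squad SQD, row CNB: the second alternative of RED
-/

set_option autoImplicit false

open Filter

open scoped BigOperators Topology

noncomputable section

namespace Pool.Agent.SQD.H44

open Pool.Agent.SQD

theorem cnb (hSix : SixStmt) (hDvc : DvcStmt) (hIne : IneStmt) : CnbStmt := by
  intro A
  obtain ⟨C, hC⟩ := hIne
  have hL1 : 1 ≤ LA A := by unfold LA; omega
  have hLA : ((LA A : ℕ) : ℝ) = 64 * ((A : ℝ) + 3) := by unfold LA; push_cast; ring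
  obtain ⟨x₁, hx₁⟩ := hSix (LA A) A hL1
  have hlim1 : Tendsto (fun x : ℕ => Real.log (Real.log (x : ℝ))) atTop atTop :=
    Real.tendsto_log_atTop.comp (Real.tendsto_log_atTop.comp tendsto_natCast_atTop_atTop)
  have hlim2 : Tendsto (fun x : ℕ => √(Real.log (x : ℝ))) atTop atTop :=
    Real.tendsto_sqrt_atTop.comp (Real.tendsto_log_atTop.comp tendsto_natCast_atTop_atTop)
  have hlim3 : Tendsto (fun x : ℕ => Real.exp (√(Real.log (x : ℝ)))) atTop atTop :=
    Real.tendsto_exp_atTop.comp hlim2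
  set C' : ℝ := Real.log 2 / 2 + Real.log (Real.log (4 * ((2 : ℕ) : ℝ))) +
    Real.log (Real.log ((2 * LA A ^ 2 : ℕ) : ℝ)) + C with hC'
  obtain ⟨a, ha⟩ := eventually_atTop.mp (hlim1.eventually_ge_atTop (|((LA A : ℕ) : ℝ) * C'|))
  obtain ⟨b, hb⟩ := eventually_atTop.mp (hlim2.eventually_ge_atTop 2)
  obtain ⟨c, hc⟩ := eventually_atTop.mp
    (hlim3.eventually_ge_atTop (((2 * LA A ^ 2 : ℕ) : ℝ) + 2))
  refine ⟨max (max x₁ 1) (max a (max b c)), ?_⟩
  intro x hx
  have hxx1 : x₁ ≤ x := le_trans (le_trans (le_max_left _ _) (le_max_left _ _)) hx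
  have hx1 : 1 ≤ x := le_trans (le_trans (le_max_right _ _) (le_max_left _ _)) hx
  have hxa := ha x (le_trans (le_trans (le_max_left _ _) (le_max_right _ _)) hx)
  have hxb := hb x (le_trans (le_trans (le_trans (le_max_left _ _) (le_max_right _ _))
    (le_max_right _ _)) hx)
  have hxc := hc x (le_trans (le_trans (le_trans (le_max_right _ _) (le_max_right _ _))
    (le_max_right _ _)) hx)
  set t : ℝ := √(Real.log (x : ℝ)) with ht
  set z : ℕ := ⌊Real.exp t⌋₊ with hz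
  have hx1' : (1 : ℝ) ≤ (x : ℝ) := by exact_mod_cast hx1
  have hzle : (z : ℝ) ≤ Real.exp t := Nat.floor_le (Real.exp_pos t).le
  have hzlt : Real.exp t < (z : ℝ) + 1 := Nat.lt_floor_add_one _
  have hwz : 2 * LA A ^ 2 ≤ z := by
    have h1 : ((2 * LA A ^ 2 : ℕ) : ℝ) ≤ (z : ℝ) := by linarith
    exact_mod_cast h1
  have hw2 : 2 ≤ 2 * LA A ^ 2 := by
    have : 1 ≤ LA A ^ 2 := Nat.one_le_pow _ _ hL1
    omega
  have hsq : ¬ IsSquare (2 : ℕ) := by
    rintro ⟨r, hr⟩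
    have h1 : r < 2 := by
      by_contra h
      have : 2 * 2 ≤ r * r := Nat.mul_le_mul (not_lt.mp h) (not_lt.mp h)
      omega
    interval_cases r <;> omega
  have hI := hC 2 z (2 * LA A ^ 2) hsq hw2 hwz
  -- the size of `z`
  have hexp2 : (2 : ℝ) ≤ Real.exp t := by
    have h0 : (0 : ℝ) ≤ ((2 * LA A ^ 2 : ℕ) : ℝ) := Nat.cast_nonneg _
    linarith
  have hl2 : Real.log 2 ≤ 1 := by
    have := Real.log_two_lt_d9
    linarith
  have hzhalf : Real.exp t / 2 ≤ (z : ℝ) := by linarith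
  have hlogz : t / 2 ≤ Real.log (z : ℝ) := by
    have h1 : Real.log (Real.exp t / 2) ≤ Real.log (z : ℝ) :=
      Real.log_le_log (by positivity) hzhalf
    rw [Real.log_div (Real.exp_pos t).ne' (by norm_num), Real.log_exp] at h1
    linarith
  have htpos : 0 < t := by linarith
  have hℓpos : 0 < Real.log (x : ℝ) := by
    by_contra hcon
    rw [ht, Real.sqrt_eq_zero_of_nonpos (not_lt.mp hcon)] at htpos
    exact lt_irrefl _ htpos
  have hloglogz : Real.log (Real.log (x : ℝ)) / 2 - Real.log 2 ≤ Real.log (Real.log (z : ℝ)) := by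
    have h1 : Real.log (t / 2) ≤ Real.log (Real.log (z : ℝ)) :=
      Real.log_le_log (half_pos htpos) hlogz
    rw [Real.log_div htpos.ne' (by norm_num), ht, Real.log_sqrt hℓpos.le] at h1
    exact h1
  have hsR : Real.log (Real.log (x : ℝ)) / 4 - C' ≤ sR (NR (2 * LA A ^ 2) z 2) := by
    have hC2 : C' = Real.log 2 / 2 + Real.log (Real.log (4 * ((2 : ℕ) : ℝ))) +
      Real.log (Real.log ((2 * LA A ^ 2 : ℕ) : ℝ)) + C := hC'
    generalize Real.log (Real.log ((2 * LA A ^ 2 : ℕ) : ℝ)) = u₁ at hC2 hI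
    generalize Real.log (Real.log (4 * ((2 : ℕ) : ℝ))) = u₂ at hC2 hI
    linarith
  -- membership in `NR`
  have hmem : ∀ q ∈ NR (2 * LA A ^ 2) z 2, q.Prime ∧ 2 * LA A ^ 2 < q ∧ q ≤ z ∧
      jacobiSym ((2 : ℕ) : ℤ) q = -1 := by
    intro q hq
    unfold NR PR at hq
    rw [Finset.mem_filter, Finset.mem_filter, Finset.mem_Ioc] at hq
    exact ⟨hq.1.2, hq.1.1.1, hq.1.1.2, hq.2⟩
  have hS := hx₁ x x z 2 1 (NR (2 * LA A ^ 2) z 2) hxx1 (by
      rw [Real.sqrt_le_iff]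
      constructor
      · positivity
      · nlinarith) (by rw [← ht]; exact hzle)
    (by
      intro q hq
      obtain ⟨h1, h2, h3, _⟩ := hmem q hq
      refine ⟨h1, h2, h3, ?_, ?_⟩
      · intro h4
        have := Nat.le_of_dvd (by norm_num) h4
        omega
      · intro h4
        have := Nat.le_of_dvd (by norm_num) h4
        omega)
    (by
      have h1 : ((LA A : ℕ) : ℝ) * (Real.log (Real.log (x : ℝ)) / 4 - C') ≤
          ((LA A : ℕ) : ℝ) * sR (NR (2 * LA A ^ 2) z 2) :=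
        mul_le_mul_of_nonneg_left hsR (Nat.cast_nonneg _)
      refine le_trans ?_ h1
      have h2 : ((LA A : ℕ) : ℝ) * C' ≤ Real.log (Real.log (x : ℝ)) := (le_abs_self _).trans hxa
      have h3 : 0 ≤ Real.log (Real.log (x : ℝ)) := (abs_nonneg _).trans hxa
      have h4 : ((LA A : ℕ) : ℝ) * (Real.log (Real.log (x : ℝ)) / 4) =
          16 * ((A : ℝ) + 3) * Real.log (Real.log (x : ℝ)) := by
        rw [hLA]; ring
      have h5 : 0 ≤ (A : ℝ) * Real.log (Real.log (x : ℝ)) :=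
        mul_nonneg (Nat.cast_nonneg _) h3
      rw [mul_sub, h4]
      nlinarith)
  have hD := hDvc (LA A) 2 1 2 x (NR (2 * LA A ^ 2) z 2) le_rfl (by
    intro q hq
    obtain ⟨h1, h2, _, h3⟩ := hmem q hq
    exact ⟨h1, h2, h3⟩)
  rw [Nat.div_one] at hD
  have hset : {n : ℕ | 1 ≤ n ∧ n ≤ x ∧ Spl (LA A) 2 2 n} =
      {n : ℕ | 1 ≤ n ∧ n ≤ x ∧ 1 ∣ n ∧ Spl (LA A) 2 2 n} := by
    ext n
    constructor
    · rintro ⟨h1, h2, h3⟩
      exact ⟨h1, h2, one_dvd n, h3⟩
    · rintro ⟨h1, h2, _, h3⟩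
      exact ⟨h1, h2, h3⟩
  rw [hset]
  refine le_trans ?_ hS
  exact_mod_cast hD

end Pool.Agent.SQD.H44
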